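import Pool.Agent.W8.ST.Stm
import Pool.Agent.W413.ST.RMet
import Pool.Agent.W8.STC.Deck
import Pool.Agent.W569.ST.Iso1
import Pool.Agent.W632.ST.Iso2
import Pool.Agent.W577.ST.Pro1
import Pool.Agent.W767.ST.Pro2
import Pool.Agent.W8.STC.LapF
import Pool.Agent.W726.ST.Red1
import Pool.Agent.W26.ST.Red2
import Pool.Agent.W8.STC.Abs
import Pool.Agent.W639.ST.CommD
import Pool.Agent.W8.STC.OpD
import Pool.Agent.W8.STC.OpI
import Pool.Agent.W904.ST.OpJ
import Pool.Agent.W364.ST.PerD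
import Pool.Agent.W8.STC.SolE
import Pool.Agent.W8.STC.LOp
import Pool.Agent.W106.ST.SteE
import Pool.Agent.W8.STC.Ode
import Pool.Agent.W8.STC.Uni
import Pool.Agent.W800.ST.Pic
import Pool.Agent.W8.STC.Tri
import Pool.Agent.W8.STC.Gst
import Pool.Agent.W8.STC.InA
import Pool.Agent.W490.ST.Wir
import Pool.Agent.W8.STC.Ene
import Pool.Agent.W802.ST.NB
import Pool.Agent.W695.ST.NC
import Pool.Agent.W8.STC.NR

/-!
MP_7e83e7_gt: two compact connected Riemannian manifolds with boundary, of dimension four, which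
are Steklov isospectral but not Neumann isospectral.
-/

namespace Pool.Agent.Results.MP_7e83e7_gt.SteklovNotNeumann

open Pool.Agent.W8.ST

/-- There are two compact connected Riemannian manifolds of dimension four with smooth nonempty
boundary which have the same Steklov spectrum but different Neumann spectra. -/
theorem result :
    ∃ M M' : Data 3, IsRiem M ∧ IsRiem M' ∧ SteklovIsospectral M M' ∧
      ¬ NeumannIsospectral M M' :=
  goal_of_props Pool.Agent.W413.ST.RMet_proof Pool.Agent.W8.STC.W889Deck.Deck_proof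
    Pool.Agent.W569.ST.Iso1_proof Pool.Agent.W632.ST.Iso2_proof
    Pool.Agent.W577.ST.Pro1_proof Pool.Agent.W767.ST.Pro2_proof
    Pool.Agent.W8.STC.W725LapF.LapF.LapF_proof Pool.Agent.W726.ST.Red1.Red1_proof
    Pool.Agent.W26.ST.Red2_proof Pool.Agent.W8.STC.W661Abs.Abs_proof
    Pool.Agent.W639.ST.CommD_proof Pool.Agent.W8.STC.W589OpD.OpD.OpD_proof
    Pool.Agent.W8.STC.W997OpI.OpI_proof Pool.Agent.W904.STJ.OpJ_proof
    Pool.Agent.W364.ST.PerD_proof Pool.Agent.W8.STC.W444SolE.SolE.SolE_proof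
    Pool.Agent.W8.STC.W889LOp.LOp_proof Pool.Agent.W106.ST.SteE_proof
    Pool.Agent.W8.STC.W397Ode.Ode_proof Pool.Agent.W8.STC.W32Uni.Uni_proof
    Pool.Agent.W800.ST.Pic.Pic_proof Pool.Agent.W8.STC.W889Tri.Tri_proof
    Pool.Agent.W8.STC.W889Gst.Gst_proof Pool.Agent.W8.STC.W918InA.InA_proof
    Pool.Agent.W490.ST.Wir_proof Pool.Agent.W8.STC.W506Ene.Ene_proof
    Pool.Agent.W802.ST.NB.NB_proof Pool.Agent.W695.ST.NC_proof
    Pool.Agent.W8.STC.W827NR.NR.NR_proof

end Pool.Agent.Results.MP_7e83e7_gt.SteklovNotNeumann
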